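import Pool.Agent.Y63.NV.Final
import Pool.Agent.Y858.NV.Wdef

set_option autoImplicit false

/-!
# Project NV, the statement WINV: weights lie over invariant blocks

For `z` in the centre of `F[G]` put `N(z) = ∏_q (z conjugated by q)`, the product over `q ∈ Q`. The
product is multiplicative and additive modulo functions which vanish on the centraliser of `Q`, so
`z ↦ h(N(z))` is a semilinear homomorphism, and its composition with the inverse of a power of the
Frobenius map is the invariant block.
-/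

open scoped Classical

set_option linter.unusedSectionVars false

noncomputable section

namespace Pool.Agent.Y918.NV

open Pool.Agent.Y63.NV Pool.Agent.Y405.NV Pool.Agent.Y858.NV

theorem ps1 {F : Type} [Field F] {H : Type} [Group H] {inst : DecidableEq H} :
    (Pi.single 1 1 : H → F) 1 = 1 := Pi.single_eq_same _ _

theorem ps0 {F : Type} [Field F] {H : Type} [Group H] {inst : DecidableEq H} {x : H}
    (hx : x ≠ 1) : (Pi.single 1 1 : H → F) x = 0 := Pi.single_eq_of_ne hx _

/-- the sum over the functions on a `p`-group of a function which is invariant under translations -/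
theorem sum_const2 {p : ℕ} [Fact p.Prime] {F : Type} [Field F] [CharP F p] {P : Type} [Group P]
    [Finite P] [Fintype (P → Bool)] (hP : IsPGroup p P) (f : (P → Bool) → F)
    (hf : ∀ (r : P) (s : P → Bool), f (fun q => s (r⁻¹ * q)) = f s) :
    ∑ s, f s = f (fun _ => true) + f (fun _ => false) := by
  let _ : MulAction P (P → Bool) :=
    { smul := fun r s q => s (r⁻¹ * q)
      one_smul := fun s => by
        funext q
        change s ((1 : P)⁻¹ * q) = s q
        rw [inv_one, one_mul]
      mul_smul := fun r r' s => by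
        funext q
        change s ((r * r')⁻¹ * q) = s (r'⁻¹ * (r⁻¹ * q))
        rw [mul_inv_rev, mul_assoc] }
  have hsm : ∀ (r : P) (s : P → Bool) (q : P), (r • s) q = s (r⁻¹ * q) := fun _ _ _ => rfl
  have hfix : ∀ s : P → Bool, (∀ r : P, r • s = s) ↔
      (s = (fun _ => true) ∨ s = fun _ => false) := by
    intro s
    constructor
    · intro h5
      have h6 : ∀ q, s q = s 1 := by
        intro q
        have h7 := congrFun (h5 q) q
        rw [hsm, inv_mul_cancel] at h7
        exact h7.symm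
      cases h8 : s 1
      · right
        funext q
        rw [h6, h8]
      · left
        funext q
        rw [h6, h8]
    · rintro (rfl | rfl)
      · exact fun r => rfl
      · exact fun r => rfl
  have hne : (fun _ : P => true) ≠ fun _ => false := by
    intro h
    have := congrFun h 1
    exact absurd this (by simp)
  rw [Pool.Agent.Y63.NV.sum_fixed (p := p) hP f hf, Finset.sum_filter]
  refine Eq.trans (Finset.sum_congr rfl (g := fun s => (if s = (fun _ => true) then f s else 0) +
    (if s = (fun _ => false) then f s else 0)) fun s _ => ?_) ?_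
  · by_cases h2 : ∀ r : P, r • s = s
    · rw [if_pos h2]
      rcases (hfix s).1 h2 with rfl | rfl
      · rw [if_pos rfl, if_neg hne, add_zero]
      · rw [if_pos rfl, if_neg hne.symm, zero_add]
    · rw [if_neg h2, if_neg (fun h => h2 ((hfix s).2 (Or.inl h))),
        if_neg (fun h => h2 ((hfix s).2 (Or.inr h))), add_zero]
  rw [Finset.sum_add_distrib]
  congr 1
  · exact (Finset.sum_eq_single (fun _ => true) (fun s _ hs => if_neg hs)
      (fun h => absurd (Finset.mem_univ _) h)).trans (if_pos rfl)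
  · exact (Finset.sum_eq_single (fun _ => false) (fun s _ hs => if_neg hs)
      (fun h => absurd (Finset.mem_univ _) h)).trans (if_pos rfl)

section

variable {F : Type} [Field F] {Γ : Type} [Group Γ] [Finite Γ] (G : Subgroup Γ) [G.Normal]

/-- the coefficient at `x` -/
def ev (x : G) : Subring.center (MonoidAlgebra F G) →+ F where
  toFun z := z.1.coeff x
  map_zero' := rfl
  map_add' _ _ := rfl

theorem sg_inner (g : G) (z : Subring.center (MonoidAlgebra F G)) : sg G (g : Γ) z = z := by
  apply Subtype.ext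
  ext x
  rw [coeff_sg]
  have h : z.1.coeff (g * (MulAut.conjNormal (H := G) (g : Γ)).symm x * g⁻¹) =
      z.1.coeff ((MulAut.conjNormal (H := G) (g : Γ)).symm x) :=
    (class_iff z.1).1 z.2 g ((MulAut.conjNormal (H := G) (g : Γ)).symm x)
  rw [← h]
  congr 1
  apply Subtype.ext
  have e : ((MulAut.conjNormal (H := G) (g : Γ)) ((MulAut.conjNormal (g : Γ)).symm x) : Γ) = x := by
    rw [MulEquiv.apply_symm_apply]
  rw [MulAut.conjNormal_apply] at e
  exact e

theorem sg_red (Q : Subgroup Γ) (hQ : G ⊔ Q = ⊤) (g : Γ) :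
    ∃ q ∈ Q, ∀ z : Subring.center (MonoidAlgebra F G), sg G g z = sg G q z := by
  have h : g ∈ ((G ⊔ Q : Subgroup Γ) : Set Γ) := by rw [hQ]; trivial
  rw [Subgroup.normal_mul] at h
  obtain ⟨n, hn, q, hq, rfl⟩ := Set.mem_mul.1 h
  refine ⟨q, hq, fun z => ?_⟩
  rw [← sg_sg]
  exact sg_inner G ⟨n, hn⟩ _

/-- the norm over `Q` -/
def nq (Q : Subgroup Γ) (z : Subring.center (MonoidAlgebra F G)) :
    Subring.center (MonoidAlgebra F G) :=
  letI := Fintype.ofFinite Q
  ∏ q : Q, sg G (q : Γ) z

theorem sg_nq (Q : Subgroup Γ) (hQ : G ⊔ Q = ⊤) (g : Γ)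
    (z : Subring.center (MonoidAlgebra F G)) : sg G g (nq G Q z) = nq G Q z := by
  let _ := Fintype.ofFinite Q
  obtain ⟨r, hr, h⟩ := sg_red (F := F) G Q hQ g
  rw [h]
  unfold nq
  rw [map_prod]
  simp only [sg_sg]
  exact Equiv.prod_comp (Equiv.mulLeft (⟨r, hr⟩ : Q))
    (fun q : Q => (sg G (q : Γ) z : Subring.center (MonoidAlgebra F G)))

theorem nq_sg (Q : Subgroup Γ) (hQ : G ⊔ Q = ⊤) (g : Γ)
    (z : Subring.center (MonoidAlgebra F G)) : nq G Q (sg G g z) = nq G Q z := by
  let _ := Fintype.ofFinite Q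
  obtain ⟨r, hr, h⟩ := sg_red (F := F) G Q hQ g
  rw [h]
  unfold nq
  simp only [sg_sg]
  exact Equiv.prod_comp (Equiv.mulRight (⟨r, hr⟩ : Q))
    (fun q : Q => (sg G (q : Γ) z : Subring.center (MonoidAlgebra F G)))

theorem nq_mul (Q : Subgroup Γ) (z w : Subring.center (MonoidAlgebra F G)) :
    nq G Q (z * w) = nq G Q z * nq G Q w := by
  let _ := Fintype.ofFinite Q
  unfold nq
  simp only [map_mul]
  exact Finset.prod_mul_distrib

theorem nq_inv (Q : Subgroup Γ) (z : Subring.center (MonoidAlgebra F G))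
    (h : ∀ g, sg G g z = z) : nq G Q z = z ^ Nat.card Q := by
  let _ := Fintype.ofFinite Q
  unfold nq
  simp only [h]
  rw [Finset.prod_const, Finset.card_univ, Nat.card_eq_fintype_card]

/-- the norm is additive on the centraliser of `Q` -/
theorem nq_add {p : ℕ} [Fact p.Prime] [CharP F p] (Q : Subgroup Γ) (hp : IsPGroup p Q)
    (z w : Subring.center (MonoidAlgebra F G)) (x : G)
    (hx : (x : Γ) ∈ Subgroup.centralizer (Q : Set Γ)) :
    (nq G Q (z + w)).1.coeff x = (nq G Q z + nq G Q w).1.coeff x := by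
  let _ := Fintype.ofFinite Q
  let m : (Q → Bool) → Subring.center (MonoidAlgebra F G) := fun s =>
    ∏ q : Q, if s q then sg G (q : Γ) z else sg G (q : Γ) w
  have h1 : nq G Q (z + w) = ∑ s : Q → Bool, m s := by
    have h2 : nq G Q (z + w) = ∏ q : Q, ∑ j : Bool, if j then sg G (q : Γ) z else sg G (q : Γ) w := by
      unfold nq
      refine Finset.prod_congr rfl fun q _ => ?_
      rw [map_add, Fintype.sum_bool]
      simp
    rw [h2, Finset.prod_univ_sum, Fintype.piFinset_univ]
  have hms : ∀ (r : Q) (s : Q → Bool), m (fun q => s (r⁻¹ * q)) = sg G (r : Γ) (m s) := by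
    intro r s
    show (∏ q : Q, if s (r⁻¹ * q) then sg G (q : Γ) z else sg G (q : Γ) w) =
      sg G (r : Γ) (∏ q : Q, if s q then sg G (q : Γ) z else sg G (q : Γ) w)
    rw [map_prod]
    rw [← Equiv.prod_comp (Equiv.mulLeft r)
      (fun q : Q => if s (r⁻¹ * q) then sg G (q : Γ) z else sg G (q : Γ) w)]
    refine Finset.prod_congr rfl fun q _ => ?_
    rw [Equiv.coe_mulLeft, inv_mul_cancel_left, Subgroup.coe_mul, ← sg_sg, ← sg_sg]
    by_cases hs : s q = true
    · rw [if_pos hs, if_pos hs]
    · rw [if_neg hs, if_neg hs]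
  have hinv : ∀ (r : Q) (s : Q → Bool), ev G x (m (fun q => s (r⁻¹ * q))) = ev G x (m s) := by
    intro r s
    rw [hms]
    show (sg G (r : Γ) (m s)).1.coeff x = (m s).1.coeff x
    rw [coeff_sg, conj_symm_eq G (x := x) (y := x)]
    have h2 := Subgroup.mem_centralizer_iff.1 hx (r : Γ) r.2
    rw [h2, mul_inv_cancel_right]
  have h3 := sum_const2 (p := p) hp (fun s : Q → Bool => ev G x (m s)) hinv
  have e1 : m (fun _ => true) = nq G Q z := by
    show (∏ q : Q, if (fun _ => true : Q → Bool) q then sg G (q : Γ) z else sg G (q : Γ) w) = _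
    simp only [if_true]
    rfl
  have e2 : m (fun _ => false) = nq G Q w := by
    show (∏ q : Q, if (fun _ => false : Q → Bool) q then sg G (q : Γ) z else sg G (q : Γ) w) = _
    simp only [Bool.false_eq_true, if_false]
    rfl
  rw [e1, e2, ← map_sum, ← h1, ← map_add] at h3
  exact h3

theorem ext0_of_mem (w : Subring.center (MonoidAlgebra F G)) {x : Γ} (hx : x ∈ G) :
    ext0 G w x = w.1.coeff ⟨x, hx⟩ := dif_pos hx

theorem ext0_of_notMem (w : Subring.center (MonoidAlgebra F G)) {x : Γ} (hx : x ∉ G) :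
    ext0 G w x = 0 := dif_neg hx

theorem ext0_add (a b : Subring.center (MonoidAlgebra F G)) :
    ext0 G (a + b) = ext0 G a + ext0 G b := by
  funext x
  rw [Pi.add_apply]
  by_cases hx : x ∈ G
  · rw [ext0_of_mem G _ hx, ext0_of_mem G _ hx, ext0_of_mem G _ hx]
    rfl
  · rw [ext0_of_notMem G _ hx, ext0_of_notMem G _ hx, ext0_of_notMem G _ hx, add_zero]

theorem ext0_ofS (c : F) : ext0 G (ofS c) = c • (Pi.single 1 1 : Γ → F) := by
  funext x
  rw [Pi.smul_apply, Pi.single_apply, smul_eq_mul, mul_ite, mul_one, mul_zero]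
  by_cases hx : x ∈ G
  · rw [ext0_of_mem G _ hx, coeff_ofS]
    have : (⟨x, hx⟩ : G) = 1 ↔ x = 1 := by
      rw [← Subtype.val_inj]
      rfl
    simp only [this]
  · rw [ext0_of_notMem G _ hx, if_neg]
    rintro rfl
    exact hx G.one_mem

theorem ext0_mul (a b : Subring.center (MonoidAlgebra F G)) :
    ext0 G (a * b) = conv (ext0 G a) (ext0 G b) := by
  funext x
  unfold conv
  by_cases hx : x ∈ G
  · have h1 : (a * b).1.coeff ⟨x, hx⟩ =
        conv (fun x => a.1.coeff x) (fun x => b.1.coeff x) ⟨x, hx⟩ :=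
      congrFun (coeff_mul_eq a.1 b.1) ⟨x, hx⟩
    rw [ext0_of_mem G _ hx, h1]
    unfold conv
    have h2 : ∀ y : G, a.1.coeff y * b.1.coeff (y⁻¹ * ⟨x, hx⟩) =
        ext0 G a (y : Γ) * ext0 G b ((y : Γ)⁻¹ * x) := by
      intro y
      have hy : (y : Γ)⁻¹ * x ∈ G := G.mul_mem (G.inv_mem y.2) hx
      rw [ext0_of_mem G _ y.2, ext0_of_mem G _ hy]
      rfl
    simp only [h2]
    rw [finsum_subtype_eq_finsum_cond (f := fun y : Γ => ext0 G a y * ext0 G b (y⁻¹ * x))
      (p := fun y => y ∈ G)]
    refine finsum_congr fun y => ?_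
    by_cases hy : y ∈ G
    · rw [finsum_eq_if, if_pos hy]
    · rw [finsum_eq_if, if_neg hy, ext0_of_notMem G _ hy, zero_mul]
  · rw [ext0_of_notMem G _ hx]
    symm
    have h3 : ∀ y : Γ, ext0 G a y * ext0 G b (y⁻¹ * x) = 0 := by
      intro y
      by_cases hy : y ∈ G
      · rw [ext0_of_notMem G (x := y⁻¹ * x), mul_zero]
        intro h
        apply hx
        have := G.mul_mem hy h
        rwa [mul_inv_cancel_left] at this
      · rw [ext0_of_notMem G _ hy, zero_mul]
    simp only [h3, finsum_zero]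

theorem ofS_one : (ofS 1 : Subring.center (MonoidAlgebra F G)) = 1 := by
  apply Subtype.ext
  ext x
  rw [coeff_ofS]
  show _ = (1 : MonoidAlgebra F G).coeff x
  rw [MonoidAlgebra.one_def, MonoidAlgebra.coeff_single, Finsupp.single_apply]
  by_cases hx : x = 1
  · rw [if_pos hx, if_pos hx.symm]
  · rw [if_neg hx, if_neg (fun h => hx h.symm)]

theorem ofS_val (c : F) : (ofS c : Subring.center (MonoidAlgebra F G)).1 =
    c • (1 : MonoidAlgebra F G) := by
  have h1 : (1 : MonoidAlgebra F G) = (ofS 1 : Subring.center (MonoidAlgebra F G)).1 := by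
    rw [ofS_one]
    rfl
  ext x
  rw [coeff_ofS, h1]
  show _ = c * (ofS 1 : Subring.center (MonoidAlgebra F G)).1.coeff x
  rw [coeff_ofS, mul_ite, mul_one, mul_zero]

theorem ofC_smul (c : F) (f : G → F) (hf : IsClassFun f) (hcf : IsClassFun (c • f)) :
    ofC (c • f) hcf = ofS c * ofC f hf := by
  apply Subtype.ext
  show ofF (c • f) = (ofS c : Subring.center (MonoidAlgebra F G)).1 * ofF f
  rw [ofS_val, smul_mul_assoc, one_mul]
  ext x
  rfl

end

theorem winv_aux {p : ℕ} [Fact p.Prime] {F : Type} [Field F] [IsAlgClosed F] [CharP F p]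
    (red : integralClosure ℤ ℂ →+* F) {Γ : Type} [Group Γ] [Finite Γ] (G : Subgroup Γ) [G.Normal]
    (Q : Subgroup Γ) (χ : Subgroup.normalizer (Q : Set Γ) → ℂ) (hp : IsPGroup p Q)
    (hQ : G ⊔ Q = ⊤) (hχ : IsWt p (Q.subgroupOf (Subgroup.normalizer (Q : Set Γ))) χ) :
    ∃ B : (G → F) → F, IsBlock B ∧ IsInvBlock G B ∧
      ∀ z : Γ → F, InZ G z → centralValue red χ (fun x => z x) = B (fun x : G => z x) := by
  have hB : IsBlock (fun f : Γ → F => centralValue red χ (fun x => f x)) :=
    wblk' p F red Γ Q χ hp hχ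
  let κ : Subring.center (MonoidAlgebra F G) → F := fun z =>
    centralValue red χ (fun x => ext0 G z x)
  have hcl : ∀ z : Subring.center (MonoidAlgebra F G), (∀ g : Γ, sg G g z = z) →
      IsClassFun (ext0 G z) := fun z hz => (ext0_InZ G z hz).conj
  have κmul : ∀ a b : Subring.center (MonoidAlgebra F G), (∀ g : Γ, sg G g a = a) →
      (∀ g : Γ, sg G g b = b) → κ (a * b) = κ a * κ b := by
    intro a b ha hb
    have h := hB.mul _ _ (hcl a ha) (hcl b hb)
    rw [← ext0_mul] at h
    exact h
  have κadd : ∀ a b : Subring.center (MonoidAlgebra F G), (∀ g : Γ, sg G g a = a) →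
      (∀ g : Γ, sg G g b = b) → κ (a + b) = κ a + κ b := by
    intro a b ha hb
    have h := hB.add _ _ (hcl a ha) (hcl b hb)
    rw [← ext0_add] at h
    exact h
  have κS : ∀ c : F, κ (ofS c) = c := by
    intro c
    have h1 : IsClassFun (Pi.single 1 1 : Γ → F) := by
      have := class_const (H := Γ) (1 : F)
      rwa [one_smul] at this
    have h := hB.smul c (Pi.single 1 1) h1
    have h2 := hB.one
    rw [← ext0_ofS G c] at h
    refine Eq.trans h ?_
    rw [h2, mul_one]
  have κpow : ∀ (a : Subring.center (MonoidAlgebra F G)) (n : ℕ), (∀ g : Γ, sg G g a = a) →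
      κ (a ^ n) = κ a ^ n := by
    intro a n ha
    induction n with
    | zero => rw [pow_zero, pow_zero, ← ofS_one G, κS]
    | succ n ih =>
      have hn : ∀ g : Γ, sg G g (a ^ n) = a ^ n := fun g => by
        rw [map_pow (sg G g) a n, ha]
      rw [pow_succ, pow_succ, κmul _ _ hn ha, ih]
  have κcut : ∀ a b : Subring.center (MonoidAlgebra F G), (∀ g : Γ, sg G g a = a) →
      (∀ g : Γ, sg G g b = b) →
      (∀ x : G, (x : Γ) ∈ Subgroup.centralizer (Q : Set Γ) → a.1.coeff x = b.1.coeff x) →
      κ a = κ b := by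
    intro a b ha hb hab
    have c1 := cutw' p F red (Subgroup.normalizer (Q : Set Γ))
      (Q.subgroupOf (Subgroup.normalizer (Q : Set Γ)))
      (fun y => ext0 G a y) χ inferInstance hp.comap_subtype (fun g y => hcl a ha g y) hχ
    have c2 := cutw' p F red (Subgroup.normalizer (Q : Set Γ))
      (Q.subgroupOf (Subgroup.normalizer (Q : Set Γ)))
      (fun y => ext0 G b y) χ inferInstance hp.comap_subtype (fun g y => hcl b hb g y) hχ
    show centralValue red χ (fun y => ext0 G a y) = centralValue red χ (fun y => ext0 G b y)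
    rw [← c1, ← c2]
    congr 1
    funext y
    unfold cut
    split_ifs with hy
    · show ext0 G a (y : Γ) = ext0 G b (y : Γ)
      by_cases hyG : (y : Γ) ∈ G
      · rw [ext0_of_mem G _ hyG, ext0_of_mem G _ hyG]
        refine hab ⟨y, hyG⟩ (Subgroup.mem_centralizer_iff.2 ?_)
        intro r hr
        have hr2 : r ∈ Subgroup.normalizer (Q : Set Γ) := Subgroup.le_normalizer hr
        exact congrArg Subtype.val (Subgroup.mem_centralizer_iff.1 hy ⟨r, hr2⟩
          (Subgroup.mem_subgroupOf.2 hr))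
      · rw [ext0_of_notMem G _ hyG, ext0_of_notMem G _ hyG]
    · rfl
  obtain ⟨a, ha⟩ := IsPGroup.iff_card.1 hp
  have hpa : 0 < p ^ a := Nat.pow_pos (Nat.Prime.pos Fact.out)
  have inj : ∀ u v : F, u ^ p ^ a = v ^ p ^ a → u = v := by
    intro u v h
    refine iterateFrobenius_inj F p a ?_
    rw [iterateFrobenius_def, iterateFrobenius_def, h]
  have hrt : ∀ v : F, ∃ u : F, u ^ p ^ a = v := fun v => IsAlgClosed.exists_pow_nat_eq v hpa
  choose rt hrt using hrt
  let h' : Subring.center (MonoidAlgebra F G) → F := fun z => rt (κ (nq G Q z))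
  have h'def : ∀ z, h' z ^ p ^ a = κ (nq G Q z) := fun z => hrt _
  have hi := sg_nq (F := F) G Q hQ
  have h'mul : ∀ z w, h' (z * w) = h' z * h' w := by
    intro z w
    apply inj
    rw [mul_pow, h'def, h'def, h'def, nq_mul, κmul _ _ (fun g => hi g z) (fun g => hi g w)]
  have h'inv : ∀ z, (∀ g : Γ, sg G g z = z) → h' z = κ z := by
    intro z hz
    apply inj
    rw [h'def, nq_inv G Q z hz, κpow z _ hz, ha]
  have h'add : ∀ z w, h' (z + w) = h' z + h' w := by
    intro z w
    apply inj
    rw [add_pow_char_pow, h'def, h'def, h'def, ← κadd _ _ (fun g => hi g z) (fun g => hi g w)]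
    refine κcut _ _ (fun g => hi g _) (fun g => by rw [map_add, hi, hi]) fun x hx => ?_
    exact nq_add G Q hp z w x hx
  have h'sg : ∀ (g : Γ) z, h' (sg G g z) = h' z := by
    intro g z
    show rt (κ (nq G Q (sg G g z))) = rt (κ (nq G Q z))
    rw [nq_sg G Q hQ]
  refine ⟨fun f => if hf : IsClassFun f then h' (ofC f hf) else 0, ⟨?_, ?_, ?_, ?_⟩, ?_, ?_⟩
  · intro f g hf hg
    have hfg : IsClassFun (f + g) := fun y x => by
      rw [Pi.add_apply, Pi.add_apply, hf, hg]
    simp only [dif_pos hf, dif_pos hg, dif_pos hfg]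
    have e : ofC (f + g) hfg = ofC f hf + ofC g hg := by
      apply Subtype.ext
      ext x
      rfl
    rw [e, h'add]
  · intro c f hf
    have hcf : IsClassFun (c • f) := fun y x => by
      rw [Pi.smul_apply, Pi.smul_apply, hf]
    simp only [dif_pos hf, dif_pos hcf]
    rw [ofC_smul G c f hf hcf, h'mul, h'inv (ofS c) (fun g => sg_ofS G g c), κS]
  · have key : ∀ f : G → F, (∀ x, f x = if x = 1 then 1 else 0) →
        (if hf : IsClassFun f then h' (ofC f hf) else 0) = 1 := by
      intro f hf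
      have hc : IsClassFun f := by
        intro g x
        have h1 : (g * x * g⁻¹ = 1) ↔ (x = 1) := by
          rw [mul_inv_eq_one, mul_eq_left]
        rw [hf, hf]
        simp only [h1]
      rw [dif_pos hc]
      have e : ofC f hc = ofS 1 := by
        apply Subtype.ext
        ext x
        rw [coeff_ofS]
        show f x = _
        rw [hf x]
        by_cases hx : x = 1
        · rw [if_pos hx, if_pos hx]
        · rw [if_neg hx, if_neg hx]
      rw [e, h'inv (ofS 1) (fun g => sg_ofS G g 1), κS]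
    refine key _ fun x => ?_
    by_cases hx : x = 1
    · rw [if_pos hx, hx]
      exact ps1
    · rw [if_neg hx]
      exact ps0 hx
  · intro f g hf hg
    have h1 : (fun x => (ofC f hf * ofC g hg).1.coeff x) = conv f g :=
      coeff_mul_eq (ofC f hf).1 (ofC g hg).1
    have hfg : IsClassFun (conv f g) := by
      rw [← h1]
      exact (class_iff _).1 (ofC f hf * ofC g hg).2
    simp only [dif_pos hf, dif_pos hg, dif_pos hfg]
    rw [← h'mul]
    congr 1
    apply Subtype.ext
    ext x
    exact (congrFun h1 x).symm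
  · intro g f f' hf hff
    have h1 : f' = fun x => (sg G g (ofC f hf)).1.coeff x := by
      funext y
      have hx : g⁻¹ * (y : Γ) * g⁻¹⁻¹ ∈ G := (inferInstance : G.Normal).conj_mem _ y.2 g⁻¹
      have e : (y : Γ) = g * ((⟨_, hx⟩ : G) : Γ) * g⁻¹ := by
        show (y : Γ) = g * (g⁻¹ * (y : Γ) * g⁻¹⁻¹) * g⁻¹
        group
      rw [hff ⟨_, hx⟩ y e, coeff_sg, conj_symm_eq G e]
      rfl
    have hf' : IsClassFun f' := by
      rw [h1]
      exact (class_iff _).1 (sg G g (ofC f hf)).2
    simp only [dif_pos hf, dif_pos hf']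
    rw [← h'sg g (ofC f hf)]
    congr 1
    apply Subtype.ext
    ext x
    exact congrFun h1 x
  · intro z hz
    have hf : IsClassFun (fun x : G => z x) := fun g x => hz.conj g x
    simp only [dif_pos hf]
    have h1 : ext0 G (ofC (fun x : G => z x) hf) = z := by
      funext x
      by_cases hx : x ∈ G
      · rw [ext0_of_mem G _ hx]
        rfl
      · rw [ext0_of_notMem G _ hx, hz.supp x hx]
    have h2 : ∀ g : Γ, sg G g (ofC (fun x : G => z x) hf) = ofC (fun x : G => z x) hf := by
      intro g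
      apply Subtype.ext
      ext y
      have hx : g⁻¹ * (y : Γ) * g⁻¹⁻¹ ∈ G := (inferInstance : G.Normal).conj_mem _ y.2 g⁻¹
      have e : (y : Γ) = g * ((⟨_, hx⟩ : G) : Γ) * g⁻¹ := by
        show (y : Γ) = g * (g⁻¹ * (y : Γ) * g⁻¹⁻¹) * g⁻¹
        group
      rw [coeff_sg, conj_symm_eq G e]
      show z (g⁻¹ * (y : Γ) * g⁻¹⁻¹) = z y
      exact hz.conj g⁻¹ y
    rw [h'inv _ h2]
    show _ = centralValue red χ (fun x => ext0 G (ofC (fun x : G => z x) hf) x)
    rw [h1]

/-- the statement `Pool.Agent.Y63.NV.S_WINV` (of `Pool.Agent.Y63.NV.Stm10`), written out -/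
theorem winv : ∀ (p : ℕ) [Fact p.Prime] (F : Type) [Field F] [IsAlgClosed F] [CharP F p]
    (red : integralClosure ℤ ℂ →+* F) (Γ : Type) [Group Γ] [Finite Γ] (G : Subgroup Γ) [G.Normal]
    (Q : Subgroup Γ) (χ : Subgroup.normalizer (Q : Set Γ) → ℂ), IsPGroup p Q → G ⊔ Q = ⊤ →
      IsWt p (Q.subgroupOf (Subgroup.normalizer (Q : Set Γ))) χ →
      ∃ B : (G → F) → F, IsBlock B ∧ IsInvBlock G B ∧
        ∀ z : Γ → F, InZ G z → centralValue red χ (fun x => z x) = B (fun x : G => z x) := by
  intro p _ F _ _ _ red Γ _ _ G _ Q χ hp hQ hχ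
  exact winv_aux red G Q χ hp hQ hχ

end Pool.Agent.Y918.NV
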